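import Pool.Agent.GT.StmtsE
import Pool.Agent.GT.StmtsD

/-!
# Squad GT, block E, row E_NPE: normalised points are unramified
-/

set_option autoImplicit false

namespace Pool.Agent.GT.OF.H51

open Pool.Agent.GT.D

theorem vl_neg' (q : ℕ) (n : ℤ) : vl q (-n) = vl q n := by
  unfold vl padicValInt
  rw [Int.natAbs_neg]

/-- the difference of two roots -/
theorem dif1 (B : Fin 3 → ℤ) (hB : B 0 + B 1 + B 2 = 0) (j k : Fin 3) (hjk : j ≠ k) :
    ∃ t, t ≠ j ∧ t ≠ k ∧ (rt 1 B j - rt 1 B k = B t ∨ rt 1 B j - rt 1 B k = -(B t)) := by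
  have hk : k = j + 1 ∨ k = j + 2 := by
    revert j k
    decide
  rcases hk with rfl | rfl
  · refine ⟨j + 2, ?_, ?_, Or.inl ?_⟩
    · revert j; decide
    · revert j; decide
    · have := (rt_sub (K := 1) hB j).1
      linear_combination -this
  · refine ⟨j + 1, ?_, ?_, Or.inr ?_⟩
    · revert j; decide
    · revert j; decide
    · have := (rt_sub (K := 1) hB j).2.1
      linear_combination -this

theorem pick3 : ∀ j b : Fin 3, ∃ k : Fin 3, k ≠ j ∧ ∀ t : Fin 3, t ≠ j → t ≠ k → t ≠ b := by
  decide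

theorem e_npe (hCLX : ClxStmt) (hDVL : DvlStmt) (hADD : D.AddStmt) (hVAL : D.ValStmt)
    (hSTR : D.StrStmt) (hMLO : D.MloStmt) (hMLE : D.MleStmt) (hGOO : D.GooStmt) : NpeStmt := by
  intro ι _ _ P r bl m st p h N hN hW x w hT hz
  obtain ⟨hD1, hD2, -, -⟩ := hDVL ι P r bl m st p h N hN hW
  have hcl := hCLX ι P r bl m st p h N hN hW x w hT
  obtain ⟨hA1, hA2, -, -, -⟩ := hADD
  obtain ⟨hV1, hV2, hV3, hV4, -⟩ := hVAL
  have hrp := hW.rp
  have hpp := hW.pr
  have hB := hW.sum
  obtain ⟨B, hBdef⟩ : ∃ B, B = Dn P bl m st p := ⟨_, rfl⟩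
  rw [← hBdef] at hD1 hD2 hcl hB hT hz ⊢
  obtain ⟨e, hedef⟩ : ∃ e, e = rt 1 B := ⟨_, rfl⟩
  have hne : ∀ t, B t ≠ 0 := fun t => (hD2 t).1
  have hdif : ∀ j k, j ≠ k → ∃ t, t ≠ j ∧ t ≠ k ∧ (e j - e k = B t ∨ e j - e k = -(B t)) := by
    rw [hedef]
    exact fun j k hjk => dif1 _ hB j k hjk
  have hsub : ∀ i, e (i + 1) - e i = -(B (i + 2)) ∧ e (i + 2) - e i = B (i + 1) ∧
      e (i + 1) - e (i + 2) = B i := by
    intro i
    have := rt_sub (K := 1) hB i
    rw [hedef]
    obtain ⟨h1, h2, h3⟩ := this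
    rw [one_mul] at h1 h2 h3
    exact ⟨h1, h2, h3⟩
  rw [← hedef] at hcl hT hz ⊢
  have p2 : ∀ l, p l ≠ 2 := by
    intro l h0
    have := hW.m8 l
    omega
  -- divisibility and valuations
  have hdvd : ∀ (q : ℕ), q.Prime → ∀ (k : ℕ) (t : Fin 3), (q : ℤ) ^ k ∣ B t ↔
      k ≤ padicValInt q (B t) := by
    intro q hq k t
    haveI : Fact q.Prime := ⟨hq⟩
    rw [padicValInt_dvd_iff]
    exact or_iff_right (hne t)
  have hlocal : ∀ l i, vl (p l) (Xc e x w i) = 0 := by
    intro l
    have h2 : ∀ i, ul (p l) (Xc e x w i) = h * vl (p l) (Xc e x w i) := by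
      intro i
      rw [hcl l i, hz i, zero_add]
    have hst := hW.st1 l
    have hm1 : ul (p l) (-1) = 0 := by
      haveI : Fact (p l).Prime := ⟨hpp l⟩
      refine (hV3 (p l) (-1) (hpp l) (p2 l) ?_).1 ?_
      · intro hd
        have h1 : (p l : ℤ) ∣ 1 := (Int.dvd_neg).1 hd
        have h2 : p l ∣ 1 := by exact_mod_cast h1
        exact (hpp l).one_lt.ne' (Nat.dvd_one.1 h2)
      · have h3 : ((-1 : ℤ) : ZMod (p l)) = -1 := by norm_num
        rw [h3, ZMod.exists_sq_eq_neg_one_iff]
        have := hW.m8 l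
        omega
    have huln : ∀ n : ℤ, n ≠ 0 → ul (p l) (-n) = ul (p l) n := by
      intro n hn
      have := (hA2 (p l) (hpp l) (p2 l)).mul (-1) n (by decide) hn
      rw [hm1, zero_add, neg_one_mul] at this
      exact this
    have hn1 : bl l ≠ bl l + 1 := by
      generalize bl l = b
      revert b
      decide
    have hn2 : bl l ≠ bl l + 2 := by
      generalize bl l = b
      revert b
      decide
    rcases Nat.lt_or_ge (st l) 1 with hs0 | hs1
    · -- `st l = 0`
      have hs0 : st l = 0 := by omega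
      have hnd : ∀ t, t ≠ bl l → ¬ (p l : ℤ) ∣ B t := by
        intro t ht hd
        have h3 := (hdvd (p l) (hpp l) 1 t).1 (by rw [pow_one]; exact hd)
        rw [(hD1 l t).1, hs0, if_neg (Ne.symm ht)] at h3
        omega
      have hnd1 : ¬ (p l : ℤ) ∣ e (bl l + 1) - e (bl l) := by
        rw [(hsub (bl l)).1]
        intro hd
        exact hnd _ hn2.symm ((dvd_neg).1 hd)
      have hnd2 : ¬ (p l : ℤ) ∣ e (bl l + 2) - e (bl l) := by
        rw [(hsub (bl l)).2.1]
        exact hnd _ hn1.symm
      have hul1 : ul (p l) (e (bl l + 1) - e (bl l)) = 1 := by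
        rw [(hsub (bl l)).1, huln _ (hne _), (hD1 l (bl l + 2)).2, if_neg hn2, hs0]
        simp
      have hvb : vl (p l) (e (bl l + 1) - e (bl l + 2)) = (m l : ZMod 2) := by
        rw [(hsub (bl l)).2.2]
        unfold vl
        rw [(hD1 l (bl l)).1, if_pos rfl, hs0, zero_add]
      rcases Nat.eq_zero_or_pos (m l) with hm0 | hm0
      · -- good primes
        refine hGOO _ x w (p l) hT (hpp l) ?_
        intro i j hij
        have hnd' : ∀ t, ¬ (p l : ℤ) ∣ B t := by
          intro t hd
          have h3 := (hdvd (p l) (hpp l) 1 t).1 (by rw [pow_one]; exact hd)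
          rw [(hD1 l t).1, hs0, hm0, ite_self] at h3
          omega
        obtain ⟨t, -, -, ht | ht⟩ := hdif i j hij
        · rw [ht]; exact hnd' t
        · rw [ht]; intro hd; exact hnd' t ((dvd_neg).1 hd)
      · rcases Nat.even_or_odd (m l) with hev | hod
        · -- even
          refine hMLE _ x w (p l) (bl l) hT (hpp l) (p2 l) hnd1 hnd2 ?_ ?_ ?_ hul1
          · intro h0
            apply hne (bl l)
            rw [← (hsub (bl l)).2.2, h0, sub_self]
          · rw [(hsub (bl l)).2.2]
            have h3 := (hdvd (p l) (hpp l) 1 (bl l)).2 (by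
              rw [(hD1 l (bl l)).1, hs0, if_pos rfl]
              omega)
            rwa [pow_one] at h3
          · rw [hvb]
            exact (ZMod.natCast_eq_zero_iff_even).2 hev
        · -- odd
          have hm1 : (m l : ZMod 2) = 1 := (ZMod.natCast_eq_one_iff_odd).2 hod
          obtain ⟨g1, g2, g3⟩ := hMLO _ x w (p l) (bl l) hT (hpp l) (p2 l) hnd1 hnd2
            (by rw [hvb, hm1])
          rw [hul1, mul_one, h2, g1, mul_zero] at g3
          intro i
          have hi : i = bl l ∨ i = bl l + 1 ∨ i = bl l + 2 := by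
            generalize bl l = b
            revert b i
            decide
          rcases hi with rfl | rfl | rfl
          · exact g1
          · exact g3.symm
          · rw [g2]; exact g3.symm
    · -- `st l = 1`
      have hs1 : st l = 1 := by omega
      have hdp : ∀ t, (p l : ℤ) ∣ B t := by
        intro t
        have h3 := (hdvd (p l) (hpp l) 1 t).2 (by
          rw [(hD1 l t).1, hs1]
          omega)
        rwa [pow_one] at h3
      have hall : ∀ j k, (p l : ℤ) ∣ e j - e k := by
        intro j k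
        by_cases hjk : j = k
        · rw [hjk, sub_self]
          exact dvd_zero _
        · obtain ⟨t, -, -, ht | ht⟩ := hdif j k hjk
          · rw [ht]; exact hdp t
          · rw [ht]; exact (dvd_neg).2 (hdp t)
      have hsq : ∀ t, t ≠ bl l → ¬ (p l : ℤ) ^ 2 ∣ B t := by
        intro t ht hd
        have h3 := (hdvd (p l) (hpp l) 2 t).1 hd
        rw [(hD1 l t).1, hs1, if_neg (Ne.symm ht)] at h3
        omega
      rcases hSTR e x w (p l) (bl l) hT (hpp l) (p2 l) hall
        (by rw [(hsub (bl l)).1]; intro hd; exact hsq _ hn2.symm ((dvd_neg).1 hd))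
        (by rw [(hsub (bl l)).2.1]; exact hsq _ hn1.symm)
        (by
          intro h0
          apply hne (bl l)
          rw [← (hsub (bl l)).2.2, h0, sub_self]) with hh | ⟨j, hj⟩
      · intro i
        exact (hh i).1
      · exfalso
        obtain ⟨k, hkj, hk⟩ := pick3 j (bl l)
        obtain ⟨t, htj, htk, ht⟩ := hdif j k hkj.symm
        have htb : bl l ≠ t := (hk t htj htk).symm
        obtain ⟨q1, q2⟩ := hj k hkj
        have q3 : vl (p l) (e j - e k) = 1 := by
          have : vl (p l) (B t) = 1 := by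
            unfold vl
            rw [(hD1 l t).1, if_neg htb, hs1]
            simp
          rcases ht with ht | ht
          · rw [ht, this]
          · rw [ht, vl_neg', this]
        have q4 : ul (p l) (e j - e k) = 1 + h := by
          have : ul (p l) (B t) = 1 + h := by
            rw [(hD1 l t).2, if_neg htb, hs1]
            simp
          rcases ht with ht | ht
          · rw [ht, this]
          · rw [ht, huln _ (hne t), this]
        rw [q3] at q1
        rw [q4, h2, q1, mul_one] at q2
        have h5 : ∀ u : ZMod 2, u ≠ 1 + u := by decide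
        exact h5 _ q2
  refine ⟨hlocal, ?_⟩
  have hvr : ∀ i, vl r (Xc e x w i) = 0 := by
    intro i
    have h3 := hz i
    unfold zz at h3
    rw [Finset.sum_eq_zero (fun l _ => hlocal l i), mul_zero, add_zero] at h3
    exact h3
  have hdr : ∀ t, (r : ℤ) ∣ B t := by
    intro t
    have h3 := (hdvd r hrp 1 t).2 (by rw [(hD2 t).2.2.1])
    rwa [pow_one] at h3
  have hall : ∀ j k, (r : ℤ) ∣ e j - e k := by
    intro j k
    by_cases hjk : j = k
    · rw [hjk, sub_self]
      exact dvd_zero _
    · obtain ⟨t, -, -, ht | ht⟩ := hdif j k hjk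
      · rw [ht]; exact hdr t
      · rw [ht]; exact (dvd_neg).2 (hdr t)
  have hsq : ∀ t, ¬ (r : ℤ) ^ 2 ∣ B t := by
    intro t hd
    have h3 := (hdvd r hrp 2 t).1 hd
    rw [(hD2 t).2.2.1] at h3
    omega
  rcases hSTR e x w r 0 hT hrp hW.r2 hall
    (by rw [(hsub 0).1]; intro hd; exact hsq _ ((dvd_neg).1 hd))
    (by rw [(hsub 0).2.1]; exact hsq _)
    (by
      intro h0
      apply hne 0
      rw [← (hsub 0).2.2, h0, sub_self]) with hh | ⟨j, hj⟩
  · intro i
    exact hh i
  · exfalso
    obtain ⟨k, hkj, -⟩ := pick3 j j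
    have h2 := (hj k hkj).1
    obtain ⟨t, -, -, ht⟩ := hdif j k hkj.symm
    have h3 : vl r (e j - e k) = 1 := by
      have : vl r (B t) = 1 := by
        unfold vl
        rw [(hD2 t).2.2.1]
        rfl
      rcases ht with ht | ht
      · rw [ht, this]
      · rw [ht, vl_neg', this]
    rw [h3, hvr] at h2
    exact zero_ne_one h2

end Pool.Agent.GT.OF.H51
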