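import Pool.Agent.GT.StmtsE

/-!
# Squad GT, block E, row E_HGT: descent with heights
-/

set_option autoImplicit false

namespace Pool.Agent.GT.OF.H51

open Polynomial

theorem one_le_Ht (x : ℚ) : 1 ≤ Ht x := le_max_of_le_right x.pos

theorem finite_Ht (B : ℕ) : {x : ℚ | Ht x ≤ B}.Finite := by
  have hf : Set.Finite ((Set.Icc (-(B : ℤ)) (B : ℤ)) ×ˢ (Set.Iic B)) :=
    (Set.finite_Icc _ _).prod (Set.finite_Iic _)
  refine Set.Finite.of_injOn (f := fun x : ℚ => (x.num, x.den)) ?_ ?_ hf
  · intro x hx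
    have h1 : x.num.natAbs ≤ B := le_trans (le_max_left _ _) hx
    have h2 : x.den ≤ B := le_trans (le_max_right _ _) hx
    refine ⟨?_, h2⟩
    show x.num ∈ Set.Icc (-(B : ℤ)) (B : ℤ)
    rw [Set.mem_Icc]
    omega
  · intro x _ y _ h
    exact Rat.ext (congrArg Prod.fst h) (congrArg Prod.snd h)

section

variable {A : Type} [AddCommGroup A] (HX : A → ℚ → Prop)

open Classical in
/-- the height of a point -/
noncomputable def hp (Q : A) : ℕ := if h : ∃ x, HX Q x then Ht h.choose else 1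

variable {HX}

theorem hp_of (huniq : ∀ Q x x', HX Q x → HX Q x' → x' = x) {Q : A} {x : ℚ} (h : HX Q x) :
    hp HX Q = Ht x := by
  unfold hp
  have h' : ∃ x, HX Q x := ⟨x, h⟩
  rw [dif_pos h', huniq Q _ _ h h'.choose_spec]

theorem hp_zero (h0 : ∀ x, ¬ HX (0 : A) x) : hp HX (0 : A) = 1 := by
  unfold hp
  rw [dif_neg]
  rintro ⟨x, hx⟩
  exact h0 x hx

theorem one_le_hp (Q : A) : 1 ≤ hp HX Q := by
  unfold hp
  split_ifs with h
  · exact one_le_Ht _
  · exact le_rfl

/-- the abstract descent -/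
theorem hgt_abs (e : Fin 3 → ℚ) (hne : ∀ i j, i ≠ j → e i ≠ e j) (hta : HtaStmt)
    (d1 : ∀ (Q : A) (x : ℚ), HX Q x → (2 • Q = 0 ↔ ∃ i, x = e i))
    (d2 : ∀ (Q : A) (x : ℚ), HX Q x → 2 • Q ≠ 0 → ∃ x' : ℚ, HX (2 • Q) x' ∧
      ∀ i : Fin 3, (x' - e i) * (4 * ((x - e 0) * (x - e 1) * (x - e 2))) =
        ((x - e i) ^ 2 - (e i - e (i + 1)) * (e i - e (i + 2))) ^ 2)
    (d4 : ∀ (Q R : A) (x : ℚ), HX Q x → HX R x → Q = R ∨ Q = -R)
    (huniq : ∀ Q x x', HX Q x → HX Q x' → x' = x)
    (d6 : ∀ Q : A, Q ≠ 0 → ∃ x, HX Q x) (d7 : ∀ x, ¬ HX (0 : A) x)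
    (tr : ∀ (T Q : A) (j : Fin 3) (x : ℚ), HX T (e j) → HX Q x → x ≠ e j →
      ∃ x' : ℚ, HX (Q + T) x' ∧ (x' - e j) * (x - e j) = (e j - e (j + 1)) * (e j - e (j + 2)))
    (hdiv : ∀ Q : A, ∃ T Q' : A, 2 • T = 0 ∧ Q = T + 2 • Q') (Q : A) :
    ∃ n : ℕ, 0 < n ∧ n • Q = 0 := by
  -- (a)
  obtain ⟨C₂, hC₂⟩ : ∃ C₂ : ℕ, ∀ Q : A, hp HX Q ^ 4 ≤ C₂ * hp HX (2 • Q) := by
    let g : ℚ[X] := C 4 * ((X - C (e 0)) * (X - C (e 1)) * (X - C (e 2)))
    let f : ℚ[X] := ((X - C (e 0)) ^ 2 - C ((e 0 - e 1) * (e 0 - e 2))) ^ 2 + C (e 0) * g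
    have hroot : ∀ i : Fin 3, f.eval (e i) ≠ 0 := by
      intro i
      have h01 := sub_ne_zero.2 (hne 0 1 (by decide))
      have h02 := sub_ne_zero.2 (hne 0 2 (by decide))
      have h12 := sub_ne_zero.2 (hne 1 2 (by decide))
      have h10 := sub_ne_zero.2 (hne 1 0 (by decide))
      have h20 := sub_ne_zero.2 (hne 2 0 (by decide))
      have h21 := sub_ne_zero.2 (hne 2 1 (by decide))
      fin_cases i
      · show f.eval (e 0) ≠ 0
        have : f.eval (e 0) = ((e 0 - e 1) * (e 0 - e 2)) ^ 2 := by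
          simp only [f, g, eval_add, eval_sub, eval_pow, eval_mul, eval_C, eval_X]
          ring
        rw [this]
        exact pow_ne_zero _ (mul_ne_zero h01 h02)
      · show f.eval (e 1) ≠ 0
        have : f.eval (e 1) = ((e 1 - e 0) * (e 1 - e 2)) ^ 2 := by
          simp only [f, g, eval_add, eval_sub, eval_pow, eval_mul, eval_C, eval_X]
          ring
        rw [this]
        exact pow_ne_zero _ (mul_ne_zero h10 h12)
      · show f.eval (e 2) ≠ 0
        have : f.eval (e 2) = ((e 2 - e 0) * (e 2 - e 1)) ^ 2 := by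
          simp only [f, g, eval_add, eval_sub, eval_pow, eval_mul, eval_C, eval_X]
          ring
        rw [this]
        exact pow_ne_zero _ (mul_ne_zero h20 h21)
    have hlin : ∀ i : Fin 3, IsCoprime f (X - C (e i)) := by
      intro i
      have hirr : Irreducible (X - C (e i)) := irreducible_X_sub_C _
      refine ((hirr.coprime_iff_not_dvd).2 ?_).symm
      rw [dvd_iff_isRoot]
      exact hroot i
    have hcop : IsCoprime f g := by
      have hu : IsUnit (C (4 : ℚ)) := isUnit_C.2 (by norm_num)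
      refine (isCoprime_mul_unit_left_right hu _ _).2 ?_
      exact ((hlin 0).mul_right (hlin 1)).mul_right (hlin 2)
    have hgd : g.natDegree ≤ 4 := by
      simp only [g]
      compute_degree
      norm_num
    have hfd : f.natDegree = 4 := by
      simp only [f, g]
      compute_degree!
    have hmax : max f.natDegree g.natDegree = 4 := by
      rw [hfd]
      exact max_eq_left hgd
    obtain ⟨C₁, hC₁, hH⟩ := hta f g hcop (by rw [hmax]; norm_num)
    rw [hmax] at hH
    refine ⟨C₁ + Ht (e 0) ^ 4 + Ht (e 1) ^ 4 + Ht (e 2) ^ 4, fun Q => ?_⟩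
    have h1 : 1 ≤ hp HX (2 • Q) := one_le_hp _
    by_cases h2 : 2 • Q = 0
    · by_cases hQ : Q = 0
      · subst hQ
        rw [hp_zero d7, one_pow]
        refine le_trans ?_ (Nat.mul_le_mul_left _ h1)
        omega
      · obtain ⟨x, hx⟩ := d6 Q hQ
        obtain ⟨i, hi⟩ := (d1 Q x hx).1 h2
        rw [hp_of huniq hx, hi]
        refine le_trans ?_ (Nat.mul_le_mul_left _ h1)
        rw [mul_one]
        fin_cases i
        · show Ht (e 0) ^ 4 ≤ _
          omega
        · show Ht (e 1) ^ 4 ≤ _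
          omega
        · show Ht (e 2) ^ 4 ≤ _
          omega
    · have hQ : Q ≠ 0 := by
        rintro rfl
        exact h2 (smul_zero 2)
      obtain ⟨x, hx⟩ := d6 Q hQ
      have hxe : ∀ i, x ≠ e i := fun i hi => h2 ((d1 Q x hx).2 ⟨i, hi⟩)
      obtain ⟨x', hx', hid⟩ := d2 Q x hx h2
      have hg0 : g.eval x ≠ 0 := by
        simp only [g, eval_sub, eval_mul, eval_C, eval_X]
        exact mul_ne_zero (by norm_num) (mul_ne_zero (mul_ne_zero (sub_ne_zero.2 (hxe 0))
          (sub_ne_zero.2 (hxe 1))) (sub_ne_zero.2 (hxe 2)))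
      have hxx : x' = f.eval x / g.eval x := by
        rw [eq_div_iff hg0]
        have := hid 0
        have h01 : (0 : Fin 3) + 1 = 1 := rfl
        have h02 : (0 : Fin 3) + 2 = 2 := rfl
        rw [h01, h02] at this
        simp only [f, g, eval_add, eval_sub, eval_pow, eval_mul, eval_C, eval_X]
        linear_combination this
      rw [hp_of huniq hx, hp_of huniq hx', hxx]
      refine le_trans (hH x hg0).1 (Nat.mul_le_mul_right _ ?_)
      omega
  -- (b)
  obtain ⟨C₃, hC₃⟩ : ∃ C₃ : ℕ, ∀ Q T : A, 2 • T = 0 → hp HX (Q + T) ≤ C₃ * hp HX Q := by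
    have hj : ∀ j : Fin 3, ∃ c : ℕ, ∀ x : ℚ, x ≠ e j → ∀ x' : ℚ,
        (x' - e j) * (x - e j) = (e j - e (j + 1)) * (e j - e (j + 2)) → Ht x' ≤ c * Ht x := by
      intro j
      let g : ℚ[X] := X - C (e j)
      let f : ℚ[X] := C (e j) * (X - C (e j)) + C ((e j - e (j + 1)) * (e j - e (j + 2)))
      have hc0 : (e j - e (j + 1)) * (e j - e (j + 2)) ≠ 0 := by
        refine mul_ne_zero (sub_ne_zero.2 (hne _ _ ?_)) (sub_ne_zero.2 (hne _ _ ?_))
        · intro h
          fin_cases j <;> simp at h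
        · intro h
          fin_cases j <;> simp at h
      have hcop : IsCoprime f g := by
        have hirr : Irreducible (X - C (e j)) := irreducible_X_sub_C _
        refine ((hirr.coprime_iff_not_dvd).2 ?_).symm
        rw [dvd_iff_isRoot]
        show f.eval (e j) ≠ 0
        simp only [f, eval_add, eval_sub, eval_mul, eval_C, eval_X, sub_self, mul_zero, zero_add]
        exact hc0
      have hgd : g.natDegree = 1 := natDegree_X_sub_C _
      have hfd : f.natDegree ≤ 1 := by
        simp only [f]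
        compute_degree
      have hmax : max f.natDegree g.natDegree = 1 := by
        rw [hgd]
        exact max_eq_right hfd
      obtain ⟨c, hc, hH⟩ := hta f g hcop (by rw [hmax])
      rw [hmax] at hH
      refine ⟨c, fun x hx x' hxx' => ?_⟩
      have hg0 : g.eval x ≠ 0 := by
        simp only [g, eval_sub, eval_C, eval_X]
        exact sub_ne_zero.2 hx
      have hxx : x' = f.eval x / g.eval x := by
        rw [eq_div_iff hg0]
        simp only [f, g, eval_add, eval_sub, eval_mul, eval_C, eval_X]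
        linear_combination hxx'
      rw [hxx]
      have := (hH x hg0).2
      rwa [pow_one] at this
    choose c hc using hj
    refine ⟨1 + c 0 + c 1 + c 2 + Ht (e 0) + Ht (e 1) + Ht (e 2), fun Q T hT => ?_⟩
    have h1 : 1 ≤ hp HX Q := one_le_hp _
    by_cases hT0 : T = 0
    · subst hT0
      rw [add_zero]
      refine Nat.le_mul_of_pos_left _ ?_
      omega
    obtain ⟨xT, hxT⟩ := d6 T hT0
    obtain ⟨j, hj⟩ := (d1 T xT hxT).1 hT
    rw [hj] at hxT
    have hsum : c j ≤ c 0 + c 1 + c 2 ∧ Ht (e j) ≤ Ht (e 0) + Ht (e 1) + Ht (e 2) := by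
      fin_cases j
      · show c 0 ≤ c 0 + c 1 + c 2 ∧ Ht (e 0) ≤ Ht (e 0) + Ht (e 1) + Ht (e 2)
        omega
      · show c 1 ≤ c 0 + c 1 + c 2 ∧ Ht (e 1) ≤ Ht (e 0) + Ht (e 1) + Ht (e 2)
        omega
      · show c 2 ≤ c 0 + c 1 + c 2 ∧ Ht (e 2) ≤ Ht (e 0) + Ht (e 1) + Ht (e 2)
        omega
    by_cases hQ : Q = 0
    · subst hQ
      rw [zero_add, hp_of huniq hxT]
      refine le_trans ?_ (Nat.mul_le_mul_left _ h1)
      rw [mul_one]
      omega
    obtain ⟨x, hx⟩ := d6 Q hQ
    by_cases hxe : x = e j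
    · rw [hxe] at hx
      have hQT : Q + T = 0 := by
        have h2T : T + T = 0 := by rw [← two_nsmul]; exact hT
        rcases d4 Q T _ hx hxT with h | h
        · rw [h, h2T]
        · rw [h, neg_add_cancel]
      rw [hQT, hp_zero d7]
      refine Nat.one_le_iff_ne_zero.2 (Nat.mul_ne_zero (by omega) (by omega))
    · obtain ⟨x', hx', hid⟩ := tr T Q j x hxT hx hxe
      rw [hp_of huniq hx', hp_of huniq hx]
      refine le_trans (hc j x hxe x' hid) (Nat.mul_le_mul_right _ ?_)
      omega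
  -- (c)
  have hstep : ∀ Q T Q' : A, 2 • T = 0 → Q = T + 2 • Q' →
      hp HX Q' ≤ max (C₂ * C₃) (hp HX Q) := by
    intro Q T Q' hT hQ
    have h2T : T + T = 0 := by rw [← two_nsmul]; exact hT
    have h1 : 2 • Q' = Q + T := by
      rw [hQ]
      have : T + 2 • Q' + T = (T + T) + 2 • Q' := by abel
      rw [this, h2T, zero_add]
    have h2 := hC₂ Q'
    rw [h1] at h2
    have h3 : hp HX Q' ^ 4 ≤ C₂ * C₃ * hp HX Q := by
      refine le_trans h2 ?_
      rw [mul_assoc]
      exact Nat.mul_le_mul_left _ (hC₃ Q T hT)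
    by_contra hcon
    push Not at hcon
    obtain ⟨h4, h5⟩ := max_lt_iff.1 hcon
    have h6 : C₂ * C₃ * hp HX Q < hp HX Q' * hp HX Q' := by
      have := one_le_hp (HX := HX) Q
      exact Nat.mul_lt_mul_of_lt_of_le h4 h5.le (by omega)
    have h7 : hp HX Q' * hp HX Q' ≤ hp HX Q' ^ 4 := by
      have h8 := one_le_hp (HX := HX) Q'
      have : hp HX Q' ^ 4 = (hp HX Q' * hp HX Q') * (hp HX Q' * hp HX Q') := by ring
      rw [this]
      exact Nat.le_mul_of_pos_right _ (Nat.mul_pos h8 h8)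
    omega
  -- (d)
  choose T Q' hT hQ' using hdiv
  let s : ℕ → A := fun k => Nat.rec Q (fun _ R => Q' R) k
  have hs0 : s 0 = Q := rfl
  have hs1 : ∀ k, s (k + 1) = Q' (s k) := fun k => rfl
  have hbd : ∀ k, hp HX (s k) ≤ max (C₂ * C₃) (hp HX Q) := by
    intro k
    induction k with
    | zero => exact le_max_right _ _
    | succ k ih =>
      rw [hs1]
      exact le_trans (hstep (s k) (T (s k)) (Q' (s k)) (hT _) (hQ' _))
        (max_le (le_max_left _ _) ih)
  have hfin : {R : A | hp HX R ≤ max (C₂ * C₃) (hp HX Q)}.Finite := by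
    have h1 : (⋃ x ∈ {x : ℚ | Ht x ≤ max (C₂ * C₃) (hp HX Q)}, {R : A | HX R x}).Finite := by
      refine Set.Finite.biUnion (finite_Ht _) ?_
      intro x _
      by_cases hx : ∃ R, HX R x
      · obtain ⟨R, hR⟩ := hx
        refine Set.Finite.subset (Set.toFinite {R, -R}) ?_
        intro S hS
        rcases d4 S R x hS hR with h | h
        · exact Or.inl h
        · exact Or.inr h
      · have : {R : A | HX R x} = ∅ := by
          ext R
          constructor
          · intro h
            exact (hx ⟨R, h⟩).elim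
          · intro h
            exact h.elim
        rw [this]
        exact Set.finite_empty
    refine Set.Finite.subset (h1.insert 0) ?_
    intro R hR
    by_cases hR0 : R = 0
    · exact Or.inl hR0
    · obtain ⟨x, hx⟩ := d6 R hR0
      refine Or.inr ?_
      rw [Set.mem_iUnion₂]
      refine ⟨x, ?_, hx⟩
      show Ht x ≤ _
      rw [← hp_of huniq hx]
      exact hR
  obtain ⟨i, j, hij, hsij⟩ : ∃ i j, i < j ∧ s i = s j := by
    by_contra hcon
    push Not at hcon
    have hinj : Function.Injective s := by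
      intro a b hab
      rcases lt_trichotomy a b with h | h | h
      · exact (hcon a b h hab).elim
      · exact h
      · exact (hcon b a h hab.symm).elim
    exact Set.infinite_of_injective_forall_mem hinj hbd hfin
  -- (e)
  have hdbl : ∀ k m, 2 • s k = 2 ^ m • (2 • s (k + m)) := by
    intro k m
    induction m with
    | zero => simp
    | succ m ih =>
      have h1 : 2 • s (k + m) = 2 • (2 • s (k + (m + 1))) := by
        have h2 : k + (m + 1) = (k + m) + 1 := rfl
        rw [h2, hs1]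
        have h3 := hQ' (s (k + m))
        have h4 : 2 • s (k + m) = 2 • (T (s (k + m)) + 2 • Q' (s (k + m))) := by
          rw [← h3]
        rw [h4, smul_add, hT, zero_add]
      rw [ih, h1, pow_succ, mul_smul]
  refine ⟨(2 ^ (j - i) - 1) * 2, ?_, ?_⟩
  · have h1 : 2 ≤ 2 ^ (j - i) := by
      have : 2 ^ 1 ≤ 2 ^ (j - i) := Nat.pow_le_pow_right (by norm_num) (by omega)
      simpa using this
    omega
  · have h1 : (2 ^ (j - i) - 1) • (2 • s i) = 0 := by
      have h2 := hdbl i (j - i)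
      rw [Nat.add_sub_cancel' hij.le, ← hsij] at h2
      have h3 : 2 ^ (j - i) • (2 • s i) = (2 ^ (j - i) - 1) • (2 • s i) + 2 • s i := by
        have h4 : 2 ^ (j - i) = (2 ^ (j - i) - 1) + 1 :=
          (Nat.sub_add_cancel Nat.one_le_two_pow).symm
        conv_lhs => rw [h4]
        rw [add_smul, one_smul]
      rw [h3] at h2
      exact add_eq_right.1 h2.symm
    have h5 := hdbl 0 i
    rw [zero_add, hs0] at h5
    rw [mul_smul, h5, smul_comm, h1, smul_zero]

end

theorem e_hgt (hHta : HtaStmt) (hDup : DupStmt) (hTrt : TrtStmt) : HgtStmt := by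
  intro W e hR hdiv
  obtain ⟨d1, d2, -, d4, d5, d6, d7, -⟩ := hDup ℚ W e hR
  intro Q
  exact @hgt_abs W.toAffine.Point (@WeierstrassCurve.Affine.Point.instAddCommGroup ℚ _ W.toAffine
    (fun a b => Classical.propDecidable (a = b))) (fun Q x => HasX Q x) e hR.ne hHta d1 d2 d4
    (fun Q x x' h h' => (d5 Q x h).2.2 x' h') d6 d7 (hTrt ℚ W e hR) hdiv Q

end Pool.Agent.GT.OF.H51
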